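import Pool.Agent.Helper77.PPL.Goals
import Pool.Agent.Helper42.RD.EXA
import Pool.Agent.Helper2.RL.EF1
import Pool.Agent.Helper74.RD.DSC
import Pool.Agent.Helper99.RS.QEX

/-!
# Project PP (MP_fc6b1e_nt), part D/L: a datum for `a`
-/

set_option autoImplicit false

namespace Pool.Agent.Helper15.PPL

open NumberField Polynomial Module IsDedekindDomain Pool.Agent.Helper51.SigLeo
open Pool.Agent.Helper51.RP Pool.Agent.Helper42.RD Pool.Agent.Helper77.PPL
open Pool.Agent.Helper40.RS (bel gw bel_smul lies conj_of_bel free_gw absNorm_free)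
open Pool.Agent.Helper13.RD (eq_gw ram_free exists_unif)
open Pool.Agent.Helper40.RD (bel_of_above ordW)
open Pool.Agent.Helper2.RL (ef_free residue_surj)

/-- inverse modulo `p` of an integer which is not a multiple of `p` -/
theorem exists_inv (p : ℕ) [hp : Fact p.Prime] (o : ℤ) (ho : ¬ (p : ℤ) ∣ o) :
    ∃ i : ℕ, ∃ j : ℤ, (i : ℤ) * o + p * j = 1 := by
  have ho' : (o : ZMod p) ≠ 0 := by
    intro h
    exact ho ((ZMod.intCast_zmod_eq_zero_iff_dvd _ _).1 h)
  have h1 : (((((o : ZMod p)⁻¹).val : ℤ) * o - 1 : ℤ) : ZMod p) = 0 := by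
    push_cast
    rw [ZMod.natCast_zmod_val, inv_mul_cancel₀ ho', sub_self]
  obtain ⟨c, hc⟩ := (ZMod.intCast_zmod_eq_zero_iff_dvd _ _).1 h1
  exact ⟨((o : ZMod p)⁻¹).val, -c, by linarith⟩

/-- `j l = i + p r` can be solved -/
theorem exists_lr (p : ℕ) [hp : Fact p.Prime] (j i : ℕ) (hj : ¬ p ∣ j) :
    ∃ l r : ℕ, j * l = i + p * r := by
  have hc : j.Coprime p := ((Nat.Prime.coprime_iff_not_dvd hp.out).2 hj).symm
  obtain ⟨m, -, hm⟩ := Nat.exists_mul_mod_eq_one_of_coprime hc hp.out.one_lt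
  refine ⟨m * i, (j * m / p) * i, ?_⟩
  have h1 := Nat.div_add_mod (j * m) p
  rw [hm] at h1
  calc j * (m * i) = (j * m) * i := by ring
    _ = (p * (j * m / p) + 1) * i := by rw [h1]
    _ = _ := by ring

section

variable {p : ℕ} [hp : Fact p.Prime] {K K₁ : Type} [Field K] [NumberField K] [Field K₁]
  [NumberField K₁] [Algebra K K₁] [IsGalois K K₁]

theorem ne_zero_of_ordv (Q : HeightOneSpectrum (𝓞 K₁)) {c : K₁} (hc : ordv Q c = 1) : c ≠ 0 := by
  intro h0
  unfold ordv at hc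
  rw [h0, map_zero, WithZero.log_zero] at hc
  norm_num at hc

/-- The uniformizer `α` of `K` such that `a*` and a power of `α` differ locally by a `p`-th power. -/
theorem local_alpha (Q : HeightOneSpectrum (𝓞 K₁)) (hQ : FreeP K Q) {a : K₁} (ha : a ≠ 0)
    (hor : ¬ (p : ℤ) ∣ ordv Q a) : ∃ α : K, ordv Q (algebraMap K K₁ α) = 1 ∧
      ∃ j : ℕ, LocPow p Q ((-1) ^ (p - 1) * a * (algebraMap K K₁ α) ^ j) := by
  have hp' := hp.out
  set as : K₁ := (-1) ^ (p - 1) * a with has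
  have has0 : as ≠ 0 := mul_ne_zero (pow_ne_zero _ (neg_ne_zero.2 one_ne_zero)) ha
  have hoas : ordv Q as = ordv Q a := ordv_sg Q _ a
  clear_value as
  obtain ⟨i, j, hij⟩ := exists_inv p (ordv Q a) hor
  obtain ⟨π, hπ⟩ := exists_unif (K := K) Q hQ
  set ϖ : K₁ := algebraMap K K₁ π with hϖ
  have hϖ1 : ordv Q ϖ = 1 := by
    unfold ordv
    rw [hπ, WithZero.log_exp]
    norm_num
  have hϖ0 : ϖ ≠ 0 := ne_zero_of_ordv Q hϖ1
  set t : K₁ := as ^ i * (ϖ ^ j) ^ p with ht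
  have ht0 : t ≠ 0 := mul_ne_zero (pow_ne_zero _ has0) (pow_ne_zero _ (zpow_ne_zero _ hϖ0))
  have hot : ordv Q t = 1 := by
    rw [ht, ordv_mul Q (pow_ne_zero _ has0) (pow_ne_zero _ (zpow_ne_zero _ hϖ0)), ordv_pow,
      ordv_pow, ordv_zpow Q hϖ0, hoas, hϖ1]
    linarith
  have hz : Q.valuation K₁ (t / ϖ) = 1 := by
    rw [← ordv_eq_zero_iff Q (div_ne_zero ht0 hϖ0), div_eq_mul_inv,
      ordv_mul Q ht0 (inv_ne_zero hϖ0), ordv_inv Q hϖ0, hot, hϖ1]
    ring
  obtain ⟨c, hcQ, hc⟩ := exists_int_close Q hz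
  have hef := ef_free (K := K) Q hQ
  obtain ⟨x, hx⟩ := residue_surj (K := K) Q (Nat.eq_one_of_mul_eq_one_left hef) c
  have hxz : Q.valuation K₁ (algebraMap K K₁ (x : K) / (t / ϖ) - 1) < 1 := by
    have h1 : Q.valuation K₁ ((c : K₁) - algebraMap K K₁ (x : K)) < 1 := by
      have h2 := (Q.valuation_lt_one_iff_mem (K := K₁) (c - algebraMap (𝓞 K) (𝓞 K₁) x)).2 hx
      exact h2
    have h3 : algebraMap K K₁ (x : K) / (t / ϖ) - 1 =
        ((c : K₁) / (t / ϖ) - 1) + -(((c : K₁) - algebraMap K K₁ (x : K)) / (t / ϖ)) := by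
      have h4 : t / ϖ ≠ 0 := div_ne_zero ht0 hϖ0
      field_simp
      ring
    rw [h3]
    refine Valuation.map_add_lt _ hc ?_
    rw [Valuation.map_neg, map_div₀, hz, div_one]
    exact h1
  refine ⟨π * x, ?_⟩
  set α : K₁ := algebraMap K K₁ (π * x) with hα
  have hαt : Q.valuation K₁ (α / t - 1) < 1 := by
    have h1 : α / t = algebraMap K K₁ (x : K) / (t / ϖ) := by
      rw [hα, map_mul, ← hϖ]
      field_simp
    rw [h1]
    exact hxz
  have hα1 : ordv Q α = 1 := by rw [ordv_eq_of_div Q ht0 hαt, hot]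
  have hpi : ¬ p ∣ i := by
    intro h
    have h1 : (p : ℤ) ∣ 1 := by
      rw [← hij]
      exact dvd_add (Dvd.dvd.mul_right (Int.natCast_dvd_natCast.2 h) _) (dvd_mul_right _ _)
    have h2 := Int.eq_one_of_dvd_one (by positivity) h1
    exact hp'.one_lt.ne' (by exact_mod_cast h2)
  obtain ⟨l, r, hlr⟩ := exists_lr p i (p - 1) hpi
  refine ⟨hα1, l, ?_⟩
  have e1 : as * α ^ l = (α / t) ^ l * ((as ^ (r + 1)) * (ϖ ^ j) ^ l) ^ p := by
    have h1 : α = (α / t) * t := by field_simp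
    have h2 : as * t ^ l = ((as ^ (r + 1)) * (ϖ ^ j) ^ l) ^ p := by
      have h3 : 1 + i * l = (r + 1) * p := by
        rw [hlr]
        have := hp'.one_le
        have h4 : p - 1 + 1 = p := Nat.sub_add_cancel this
        calc 1 + (p - 1 + p * r) = (p - 1 + 1) + p * r := by ring
          _ = (r + 1) * p := by rw [h4]; ring
      calc as * t ^ l = as ^ (1 + i * l) * ((ϖ ^ j) ^ l) ^ p := by
            rw [ht, mul_pow, pow_add, pow_one, pow_mul, ← pow_mul (ϖ ^ j), ← pow_mul (ϖ ^ j),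
              mul_comm p l]
            ring
        _ = _ := by rw [h3, mul_pow, ← pow_mul as]
    conv_lhs => rw [h1, mul_pow]
    rw [← h2]
    ring
  rw [e1, locPow_mul_pth]
  · exact locPow_of_sub Q (val_pow_sub Q hαt l)
  · exact mul_ne_zero (pow_ne_zero _ has0) (pow_ne_zero _ (zpow_ne_zero _ hϖ0))

/-- elements of type `ω`: the valuations at conjugate primes -/
theorem dvd_of_conj {ε a : K₁} (hε : IsPrimitiveRoot ε p) (ha : a ≠ 0) (haO : OmType p K ε a)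
    {Q Q' : HeightOneSpectrum (𝓞 K₁)} (h : ConjP K Q' Q) (hd : (p : ℤ) ∣ ordv Q' a) :
    (p : ℤ) ∣ ordv Q a := by
  obtain ⟨τ, hτ⟩ := h
  obtain ⟨n, c, -, hc⟩ := haO τ
  have h1 : ordv Q a = ordv Q' (τ a) := (ordv_conj τ hτ a).symm
  have hc0 : c ≠ 0 := by
    rintro rfl
    rw [zero_pow hp.out.ne_zero, mul_zero] at hc
    exact ha ((map_eq_zero_iff τ τ.injective).1 hc)
  rw [h1, hc, ordv_mul Q' (pow_ne_zero _ ha) (pow_ne_zero _ hc0), ordv_pow, ordv_pow]
  exact dvd_add (Dvd.dvd.mul_left hd _) (dvd_mul_right _ _)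

end

/-- Packet PPL-D_DAT. -/
theorem d_dat (h1 : Pool.Agent.Helper77.PPL.D_LPN) (h2 : Pool.Agent.Helper42.PP.P_OMG)
    (h3 : Pool.Agent.Helper42.PP.P_VIS) (_h4 : Pool.Agent.Helper42.PP.P_UPR)
    (h5 : Pool.Agent.Helper42.RD.E_TRF) (h6 : Pool.Agent.Helper42.RD.E_TOW)
    (h7 : Pool.Agent.Helper42.RD.E_SHF) (h8 : Pool.Agent.Helper51.RP.S_NSP) :
    Pool.Agent.Helper77.PPL.D_DAT := by
  classical
  intro p hp k _ _ K M K₁ M₁ _ _ _ _ _ _ _ _ _ _ _ _ _ _ _ _ _ _ ε hT m δ ζ Φ P hΦ hord hfin a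
    ha ha3 haO
  have hp' : p.Prime := hp.out
  obtain ⟨hG1, hG2, hc1, hc2, -, -⟩ := h6 p K M K₁ M₁ ε hT
  have ha0 : (a : K₁) ≠ 0 := fun h => ha (RingOfIntegers.ext h)
  set A : M₁ := algebraMap K₁ M₁ (a : K₁) with hA
  have hA0 : A ≠ 0 := (_root_.map_ne_zero _).2 ha0
  have hcK : (finrank K K₁).Coprime p := by
    have e1 := Module.finrank_mul_finrank K K₁ M₁
    have e2 := Module.finrank_mul_finrank K M M₁
    have e3 : (finrank K M * finrank M M₁).Coprime p := Nat.Coprime.mul_left hT.cop hc1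
    rw [e2, ← e1] at e3
    exact Nat.Coprime.coprime_mul_right e3
  obtain ⟨-, -, -, hom3, -⟩ := h2 p K K₁ ε hT.prim hT.gen hcK
  -- facts (0)
  have hAQ : ∀ W : HeightOneSpectrum (𝓞 M₁), (p : ℤ) ∣ ordv W A ↔ (p : ℤ) ∣ ordv (bel K₁ W) (a : K₁) :=
    fun W => (h5 p K₁ M₁ hc2 W (bel K₁ W) rfl).1 (a : K₁)
  have hQQ : ∀ Q Q' : HeightOneSpectrum (𝓞 K₁), bel K Q = bel K Q' →
      (p : ℤ) ∣ ordv Q' (a : K₁) → (p : ℤ) ∣ ordv Q (a : K₁) := fun Q Q' h hd =>
    dvd_of_conj hT.prim ha0 haO (conj_of_bel' h.symm) hd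
  have hWW : ∀ W W' : HeightOneSpectrum (𝓞 M₁), bel K W = bel K W' →
      (p : ℤ) ∣ ordv W' A → (p : ℤ) ∣ ordv W A := by
    intro W W' h hd
    rw [hAQ] at hd ⊢
    refine hQQ _ _ ?_ hd
    rw [bel_bel W, bel_bel W', h]
  have hQp : ∀ Q : HeightOneSpectrum (𝓞 K₁), ¬ (p : ℤ) ∣ ordv Q (a : K₁) →
      Q.valuation K₁ (p : K₁) = 1 := by
    intro Q hQ
    by_contra hne
    rw [← natCast_notMem_iff, not_not] at hne
    apply hQ
    have e1 : a - 1 ∈ Q.asIdeal := by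
      refine Ideal.mem_of_dvd _ ha3 ?_
      exact Ideal.pow_mem_of_mem _ hne 3 (by norm_num)
    have e2 : Q.valuation K₁ ((a : K₁) - 1) < 1 :=
      (Q.valuation_lt_one_iff_mem (K := K₁) (a - 1)).2 e1
    have e3 := (ordv_eq_zero_iff Q ha0).2 (val_eq_one_of_sub Q e2)
    rw [e3]
    exact dvd_zero _
  have hQfree : ∀ Q : HeightOneSpectrum (𝓞 K₁), ¬ (p : ℤ) ∣ ordv Q (a : K₁) → FreeP K Q := by
    intro Q hQ
    by_contra hne
    exact hQ (hom3 (Units.mk0 (a : K₁) ha0) haO Q hne)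
  have hvp : ∀ Q : HeightOneSpectrum (𝓞 K₁), ¬ (p : ℤ) ∣ ordv Q (a : K₁) →
      (bel K Q).valuation K (p : K) = 1 := by
    intro Q hQ
    have e1 := hQp Q hQ
    rw [← natCast_notMem_iff] at e1 ⊢
    rwa [← natCast_bel (K := K) p Q]
  have hnorm : ∀ Q : HeightOneSpectrum (𝓞 K₁), ¬ (p : ℤ) ∣ ordv Q (a : K₁) →
      p ∣ Ideal.absNorm (bel K Q).asIdeal - 1 := by
    intro Q hQ
    exact ((h3 p K M K₁ M₁ ε hT (bel K Q) (hvp Q hQ)).2.2 Q rfl (hQfree Q hQ)).2
  -- the uniformizers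
  have hal : ∀ q : HeightOneSpectrum (𝓞 K), ∃ α : K, ∀ Q : HeightOneSpectrum (𝓞 K₁), bel K Q = q →
      ¬ (p : ℤ) ∣ ordv Q (a : K₁) → ordv q α = 1 ∧
        ∃ j : ℕ, LocPow p Q ((-1) ^ (p - 1) * (a : K₁) * (algebraMap K K₁ α) ^ j) := by
    intro q
    by_cases hq : ∃ Q : HeightOneSpectrum (𝓞 K₁), bel K Q = q ∧ ¬ (p : ℤ) ∣ ordv Q (a : K₁)
    · obtain ⟨Q₀, rfl, hQ₀⟩ := hq
      obtain ⟨α, hα1, j, hj⟩ := local_alpha (p := p) (K := K) Q₀ (hQfree Q₀ hQ₀) ha0 hQ₀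
      refine ⟨α, fun Q hQ hQa => ⟨?_, ?_⟩⟩
      · rw [ordW (M := K) Q₀, ram_free Q₀ (hQfree Q₀ hQ₀), Nat.cast_one, one_mul] at hα1
        exact hα1
      · exact (h7 p K K₁ ε hT.prim (a : K₁) ha0 haO Q₀ Q (conj_of_bel' hQ) hQ₀ α ⟨j, hj⟩).2
    · refine ⟨0, fun Q hQ hQa => absurd ⟨Q, hQ, hQa⟩ hq⟩
  choose alq halq using hal
  have hunifW : ∀ W : HeightOneSpectrum (𝓞 M₁), ¬ (p : ℤ) ∣ ordv W A →
      ordv (bel K W) (alq (bel K W)) = 1 ∧
        ∃ j : ℕ, LocPow p W ((-1) ^ (p - 1) * A *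
          (algebraMap M M₁ (algebraMap K M (alq (bel K W)))) ^ j) := by
    intro W hW
    rw [hAQ] at hW
    have e0 : bel K (bel K₁ W) = bel K W := bel_bel W
    obtain ⟨e1, j, e2⟩ := halq (bel K W) (bel K₁ W) e0 hW
    refine ⟨e1, j, ?_⟩
    have h := ((h5 p K₁ M₁ hc2 W (bel K₁ W) rfl).2 _).2 e2
    rw [map_mul, map_mul, map_pow, map_pow, map_neg, map_one] at h
    rw [← IsScalarTower.algebraMap_apply K K₁ M₁] at h
    rw [← IsScalarTower.algebraMap_apply K M M₁]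
    exact h
  have hRW : ∀ w : HeightOneSpectrum (𝓞 M), w ∈ RA p K (M := M) A →
      ∃ W : HeightOneSpectrum (𝓞 M₁), Above W w ∧ ¬ (p : ℤ) ∣ ordv W A ∧ bel K W = bel K w := by
    rintro w ⟨-, W, hW, hWa⟩
    refine ⟨W, hW, hWa, ?_⟩
    rw [← bel_bel (M := M) W, bel_of_above hW]
  have hmemR : ∀ (w : HeightOneSpectrum (𝓞 M)) (W : HeightOneSpectrum (𝓞 M₁)), FreeP K w →
      bel K W = bel K w → ¬ (p : ℤ) ∣ ordv W A → w ∈ RA p K (M := M) A := by
    intro w W hw hWw hWa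
    obtain ⟨W', hW'⟩ := exists_bel (M₁ := M₁) w
    refine ⟨hw, W', ?_, ?_⟩
    · rw [← hW']; exact above_bel W'
    · intro hd
      apply hWa
      refine hWW W W' ?_ hd
      rw [hWw, ← hW', bel_bel W']
  have hnormw : ∀ w : HeightOneSpectrum (𝓞 M), w ∈ RA p K (M := M) A →
      p ∣ Ideal.absNorm w.asIdeal - 1 := by
    intro w hw
    obtain ⟨W, hW, hWa, hb⟩ := hRW w hw
    rw [absNorm_free w hw.1, ← hb, ← bel_bel (M := K₁) W]
    exact hnorm _ (by rwa [← hAQ])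
  refine ⟨fun w => alq (bel K w), ⟨?_, ?_, ?_, ?_, hnormw, ?_, ?_⟩, ⟨?_, ?_⟩, ?_⟩
  · -- finite
    have hf := Pool.Agent.Helper99.RS.finite_bad hA0
    refine (hf.image (bel M)).subset ?_
    rintro w ⟨-, W, hW, hWa⟩
    refine ⟨W, ?_, bel_of_above hW⟩
    intro h0
    apply hWa
    rw [(ordv_eq_zero_iff W hA0).2 h0]
    exact dvd_zero _
  · -- stable
    intro w hw w' hc
    obtain ⟨W, hW, hWa, hb⟩ := hRW w hw
    exact hmemR w' W (free_of_conj hc hw.1) (by rw [hb, bel_eq_of_conj hc]) hWa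
  · intro w hw
    exact hw.1
  · intro w hw
    obtain ⟨W, hW, hWa, hb⟩ := hRW w hw
    rw [hAQ] at hWa
    have e1 := hvp _ hWa
    rw [bel_bel W, hb] at e1
    rw [← natCast_notMem_iff] at e1 ⊢
    rwa [natCast_bel (K := K) p w]
  · intro w hw
    obtain ⟨W, hW, hWa, hb⟩ := hRW w hw
    have e1 := (hunifW W hWa).1
    rw [hb] at e1
    rw [ordW (M := K) w, ram_free w hw.1, Nat.cast_one, one_mul]
    exact e1
  · intro w hw w' hc
    show alq (bel K w') = alq (bel K w)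
    rw [bel_eq_of_conj hc]
  · intro W w hWw hfw hwR
    by_contra hd
    apply hwR
    exact ⟨hfw, W, hWw, hd⟩
  · intro w hw
    obtain ⟨W, hW, hWa, hb⟩ := hRW w hw
    refine ⟨W, hW, hWa, ?_⟩
    have e1 := (hunifW W hWa).2
    rw [hb] at e1
    exact e1
  · intro L T x hx
    refine ⟨hx.pol, ?_, hx.sig⟩
    intro W
    have hTR := h5 p M M₁ hc1 W (bel M W) rfl
    have hbW : bel K (bel M W) = bel K W := bel_bel W
    refine ⟨?_, ?_⟩
    · intro hd
      rw [hTR.1]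
      by_cases hf : FreeP K (bel M W)
      · refine (hx.loc (bel M W)).1 ?_
        intro hR
        obtain ⟨W', hW', hWa', hb'⟩ := hRW _ hR
        exact hWa' (hWW W' W (by rw [hb', hbW]) hd)
      · exact h8 p k K M m δ ζ Φ P hΦ hord hfin (bel M W) hf x hx.pol
    · intro hd
      by_cases hf : FreeP K (bel M W)
      · have hR : bel M W ∈ RA p K (M := M) A := ⟨hf, W, rfl, hd⟩
        obtain ⟨i, hi⟩ := (hx.loc (bel M W)).2 hR
        obtain ⟨hu, j, hj⟩ := hunifW W hd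
        have hi0 := (hTR.2 _).2 hi
        rw [map_mul, map_pow] at hi0
        have hi' : LocPow p W (algebraMap M M₁ (x : M) *
          (algebraMap M M₁ (algebraMap K M (alq (bel K (bel M W))))) ^ i) := hi0
        rw [hbW] at hi'
        set α : M₁ := algebraMap M M₁ (algebraMap K M (alq (bel K W))) with hα
        set as : M₁ := (-1) ^ (p - 1) * A with has
        have has0 : as ≠ 0 := mul_ne_zero (pow_ne_zero _ (neg_ne_zero.2 one_ne_zero)) hA0
        have halq0 : alq (bel K W) ≠ 0 := by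
          intro h0
          rw [h0] at hu
          unfold ordv at hu
          rw [map_zero, WithZero.log_zero] at hu
          norm_num at hu
        have hα0 : α ≠ 0 := (_root_.map_ne_zero _).2 ((_root_.map_ne_zero _).2 halq0)
        have hoas : ordv W as = ordv W A := ordv_sg W _ A
        clear_value as α
        have hpj : ¬ p ∣ j := by
          rintro ⟨j', rfl⟩
          have e1 := (Pool.Agent.Helper74.RD.dvd_of_locPow W hp'.ne_zero hj).2
          rw [ordv_mul W has0 (pow_ne_zero _ hα0), ordv_pow, hoas] at e1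
          apply hd
          have e2 : (p : ℤ) ∣ ((p * j' : ℕ) : ℤ) * ordv W α := by
            push_cast
            rw [mul_assoc]
            exact dvd_mul_right _ _
          exact (dvd_add_left e2).1 e1
        obtain ⟨l, r, hlr⟩ := exists_lr p j i hpj
        refine ⟨(p - 1) * l, ?_⟩
        have e1 : algebraMap M M₁ (x : M) * as ^ ((p - 1) * l) =
            ((algebraMap M M₁ (x : M) * α ^ i) * ((as * α ^ j) ^ l)⁻¹) * (as ^ l * α ^ r) ^ p := by
          have e2 : (as * α ^ j) ^ l = as ^ l * (α ^ i * α ^ (p * r)) := by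
            rw [mul_pow, ← pow_mul α j l, hlr, pow_add]
          have e3 : (as ^ l * α ^ r) ^ p = as ^ ((p - 1) * l) * as ^ l * α ^ (p * r) := by
            rw [mul_pow, ← pow_mul, ← pow_mul, ← pow_add, mul_comm r p]
            congr 2
            have h4 : p - 1 + 1 = p := Nat.sub_add_cancel hp'.one_le
            calc l * p = l * (p - 1 + 1) := by rw [h4]
              _ = (p - 1) * l + l := by ring
          rw [e2, e3]
          have f1 : as ^ l ≠ 0 := pow_ne_zero _ has0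
          have f2 : α ^ i ≠ 0 := pow_ne_zero _ hα0
          have f3 : α ^ (p * r) ≠ 0 := pow_ne_zero _ hα0
          field_simp
        rw [← has, e1, locPow_mul_pth W (mul_ne_zero (pow_ne_zero _ has0) (pow_ne_zero _ hα0))]
        exact locPow_mul W hi' (locPow_inv W (locPow_pow W hj l))
      · refine ⟨0, ?_⟩
        rw [pow_zero, mul_one, hTR.2]
        refine h1 p k K M m δ ζ Φ P hΦ hord hfin (bel M W) (bel K W) ?_ hf ?_ x hx.pol
        · rw [← hbW]; exact above_bel (bel M W)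
        · rw [← bel_bel (M := K₁) W]
          exact hnorm _ (by rwa [← hAQ])

end Pool.Agent.Helper15.PPL
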